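import Mathlib

/-!
# A symmetric doubly stochastic matrix determined by its spectrum, on none of the segments

The matrix `A = (0 1; 1 0) ⊕ (1/2 1/2; 1/2 1/2)` of order `4` has trace `1` and is determined by its
spectrum `1, 1, 0, -1` among the symmetric doubly stochastic matrices, but it lies on none of the
segments `[I, C]`, `[I, P]`, `[C, P]`, `P` a vertex.
-/

set_option autoImplicit false

open Matrix Finset

namespace Pool.Agent.Results.MP_3aa442_co.SwapPlusHalf

/-- The polytope `Δ_n^s` of the symmetric doubly stochastic `n × n` matrices. -/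
def DeltaS (n : ℕ) : Set (Matrix (Fin n) (Fin n) ℝ) :=
  {A | A ∈ doublyStochastic ℝ (Fin n) ∧ A.IsSymm}

/-- `C_n`: zero diagonal, all off-diagonal entries `1 / (n - 1)`. -/
noncomputable def Cmat (n : ℕ) : Matrix (Fin n) (Fin n) ℝ :=
  Matrix.of fun i j => if i = j then 0 else 1 / ((n : ℝ) - 1)

/-- `B` is similar to `A`: `B = S⁻¹ A S` for an invertible matrix `S`. -/
def Similar {n : ℕ} (A B : Matrix (Fin n) (Fin n) ℝ) : Prop :=
  ∃ S : (Matrix (Fin n) (Fin n) ℝ)ˣ, B = (S⁻¹ : (Matrix (Fin n) (Fin n) ℝ)ˣ).val * A * S.val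

/-- `B` is permutationally similar to `A`: `B i j = A (σ i) (σ j)` for a permutation `σ`, that is
`B = Qᵀ A Q` for a permutation matrix `Q`. -/
def PermSimilar {n : ℕ} (A B : Matrix (Fin n) (Fin n) ℝ) : Prop :=
  ∃ σ : Equiv.Perm (Fin n), B = A.submatrix σ σ

/-- `A` is determined by its spectrum in `Δ_n^s`. -/
def IsDS {n : ℕ} (A : Matrix (Fin n) (Fin n) ℝ) : Prop :=
  ∀ B ∈ DeltaS n, Similar A B → PermSimilar A B

/-- The matrix `(0 1; 1 0) ⊕ (1/2 1/2; 1/2 1/2)`. -/
noncomputable def A₀ : Matrix (Fin 4) (Fin 4) ℝ :=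
  !![0, 1, 0, 0; 1, 0, 0, 0; 0, 0, 1 / 2, 1 / 2; 0, 0, 1 / 2, 1 / 2]

theorem A₀_mem : A₀ ∈ DeltaS 4 := by
  refine ⟨?_, ?_⟩
  · rw [mem_doublyStochastic_iff_sum]
    refine ⟨?_, ?_, ?_⟩
    · intro i j
      fin_cases i <;> fin_cases j <;> simp [A₀]
    · intro i
      fin_cases i <;> simp [A₀, Fin.sum_univ_four] <;> norm_num
    · intro i
      fin_cases i <;> simp [A₀, Fin.sum_univ_four] <;> norm_num
  · ext i j
    fin_cases i <;> fin_cases j <;> simp [A₀]

/-- two elements of `Δ` with midpoint `A₀` -/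
noncomputable def A₁ : Matrix (Fin 4) (Fin 4) ℝ :=
  !![0, 1, 0, 0; 1, 0, 0, 0; 0, 0, 1, 0; 0, 0, 0, 1]
noncomputable def A₂ : Matrix (Fin 4) (Fin 4) ℝ :=
  !![0, 1, 0, 0; 1, 0, 0, 0; 0, 0, 0, 1; 0, 0, 1, 0]

theorem A₁_mem : A₁ ∈ DeltaS 4 := by
  refine ⟨?_, ?_⟩
  · rw [mem_doublyStochastic_iff_sum]
    refine ⟨?_, ?_, ?_⟩
    · intro i j
      fin_cases i <;> fin_cases j <;> simp [A₁]
    · intro i
      fin_cases i <;> simp [A₁, Fin.sum_univ_four]
    · intro i
      fin_cases i <;> simp [A₁, Fin.sum_univ_four]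
  · ext i j
    fin_cases i <;> fin_cases j <;> simp [A₁]

theorem A₂_mem : A₂ ∈ DeltaS 4 := by
  refine ⟨?_, ?_⟩
  · rw [mem_doublyStochastic_iff_sum]
    refine ⟨?_, ?_, ?_⟩
    · intro i j
      fin_cases i <;> fin_cases j <;> simp [A₂]
    · intro i
      fin_cases i <;> simp [A₂, Fin.sum_univ_four]
    · intro i
      fin_cases i <;> simp [A₂, Fin.sum_univ_four]
  · ext i j
    fin_cases i <;> fin_cases j <;> simp [A₂]

theorem not_extreme : A₀ ∉ (DeltaS 4).extremePoints ℝ := by
  intro h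
  have h1 := h.2 A₁_mem A₂_mem (by
    refine ⟨1 / 2, 1 / 2, by norm_num, by norm_num, by norm_num, ?_⟩
    ext i j
    fin_cases i <;> fin_cases j <;> simp [A₀, A₁, A₂] <;> norm_num)
  have h2 : A₁ 2 3 = A₀ 2 3 := by rw [h1]
  simp [A₀, A₁] at h2

/-- a symmetric doubly stochastic matrix of order 4 with trace 1 and eigenvalue -1 -/
theorem key (B : Matrix (Fin 4) (Fin 4) ℝ) (hB : B ∈ DeltaS 4) (htr : B.trace = 1) (y : Fin 4 → ℝ) (hy : y ≠ 0)
    (hBy : B *ᵥ y = -y) : PermSimilar A₀ B := by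
  classical
  obtain ⟨hds, hsym⟩ := hB
  rw [mem_doublyStochastic_iff_sum] at hds
  obtain ⟨hnn, hrow, hcol⟩ := hds
  have hs : ∀ i j, B i j = B j i := fun i j => by
    have := congrFun (congrFun hsym i) j
    simpa using this.symm
  obtain ⟨i₀, hi₀⟩ := Finite.exists_max (fun i => |y i|)
  have hc : 0 < |y i₀| := by
    rw [abs_pos]
    intro h0
    apply hy
    ext i
    have := hi₀ i
    rw [h0, abs_zero] at this
    simpa using this
  set c := y i₀ with hcdef
  -- neighbours of an index with maximal |y|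
  have hnb : ∀ i, |y i| = |c| → ∀ j, B i j ≠ 0 → y j = - y i := by
    intro i hi j hij
    have h1 : ∑ l, B i l * (y l + y i) * y i = 0 := by
      have h2 := congrFun hBy i
      rw [Matrix.mulVec, dotProduct] at h2
      have h3 : ∑ l, B i l * (y l + y i) * y i = (∑ l, B i l * y l) * y i + (∑ l, B i l) * (y i * y i) := by
        rw [Finset.sum_mul, Finset.sum_mul, ← Finset.sum_add_distrib]
        refine Finset.sum_congr rfl fun l _ => by ring
      rw [h3, h2, hrow]
      simp
    have h4 : ∀ l, 0 ≤ B i l * (y l + y i) * y i := by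
      intro l
      have h5 : 0 ≤ (y l + y i) * y i := by
        have h6 : |y l| ≤ |y i| := by rw [hi]; exact hi₀ l
        have h7 : |y l * y i| ≤ y i * y i := by
          rw [abs_mul, ← abs_mul_abs_self (y i)]
          exact mul_le_mul_of_nonneg_right h6 (abs_nonneg _)
        have := neg_abs_le (y l * y i)
        nlinarith
      rw [mul_assoc]
      exact mul_nonneg (hnn i l) h5
    have h8 := (Finset.sum_eq_zero_iff_of_nonneg (fun l _ => h4 l)).1 h1 j (Finset.mem_univ j)
    have hyi : y i ≠ 0 := by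
      intro h0
      rw [h0, abs_zero] at hi
      linarith
    have h9 : y j + y i = 0 := by
      rcases mul_eq_zero.1 h8 with h | h
      · rcases mul_eq_zero.1 h with h | h
        · exact absurd h hij
        · exact h
      · exact absurd h hyi
    linarith
  let K : Finset (Fin 4) := univ.filter (fun i => y i = c)
  let K' : Finset (Fin 4) := univ.filter (fun i => y i = -c)
  have hc0 : c ≠ 0 := abs_pos.1 hc
  have hdisj : Disjoint K K' := by
    rw [Finset.disjoint_left]
    intro i hi hi'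
    simp only [K, K', Finset.mem_filter, Finset.mem_univ, true_and] at hi hi'
    apply hc0
    linarith
  have hK : ∀ i ∈ K, ∀ j, j ∉ K' → B i j = 0 := by
    intro i hi j hj
    simp only [K, K', Finset.mem_filter, Finset.mem_univ, true_and] at hi hj
    by_contra h
    exact hj (by rw [hnb i (by rw [hi]) j h, hi])
  have hK' : ∀ i ∈ K', ∀ j, j ∉ K → B i j = 0 := by
    intro i hi j hj
    simp only [K, K', Finset.mem_filter, Finset.mem_univ, true_and] at hi hj
    by_contra h
    exact hj (by rw [hnb i (by rw [hi, abs_neg]) j h, hi, neg_neg])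
  have hcard : (K.card : ℝ) = K'.card := by
    have e1 : ∑ i ∈ K, ∑ j ∈ K', B i j = K.card := by
      rw [Finset.sum_congr rfl (g := fun _ => (1 : ℝ))]
      · simp
      · intro i hi
        rw [← hrow i]
        exact Finset.sum_subset (Finset.subset_univ _) (fun j _ hj => hK i hi j hj)
    have e2 : ∑ j ∈ K', ∑ i ∈ K, B i j = K'.card := by
      rw [Finset.sum_congr rfl (g := fun _ => (1 : ℝ))]
      · simp
      · intro j hj
        rw [← hcol j]
        refine Finset.sum_subset (Finset.subset_univ _) (fun i _ hi => ?_)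
        rw [hs]
        exact hK' j hj i hi
    rw [← e1, ← e2, Finset.sum_comm]
  have hcard' : K.card = K'.card := by exact_mod_cast hcard
  have hKne : i₀ ∈ K := by simp [K, hcdef]
  have hle : K.card + K'.card ≤ 3 := by
    by_contra hcon
    push Not at hcon
    have h1 : (K ∪ K').card = K.card + K'.card := Finset.card_union_of_disjoint hdisj
    have h2 : K ∪ K' = univ := by
      apply Finset.eq_univ_of_card
      have := Finset.card_le_univ (K ∪ K')
      simp only [Fintype.card_fin] at this ⊢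
      omega
    have h3 : B.trace = 0 := by
      rw [Matrix.trace]
      refine Finset.sum_eq_zero fun i _ => ?_
      have hi : i ∈ K ∪ K' := by rw [h2]; exact Finset.mem_univ i
      rcases Finset.mem_union.1 hi with hi | hi
      · exact hK i hi i (fun h => Finset.disjoint_left.1 hdisj hi h)
      · exact hK' i hi i (fun h => Finset.disjoint_left.1 hdisj h hi)
    rw [htr] at h3
    norm_num at h3
  have hpos : 0 < K.card := Finset.card_pos.2 ⟨i₀, hKne⟩
  have hK1 : K.card = 1 := by omega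
  have hK'1 : K'.card = 1 := by omega
  obtain ⟨k, hk⟩ := Finset.card_eq_one.1 hK1
  obtain ⟨k', hk'⟩ := Finset.card_eq_one.1 hK'1
  have hkk : k ≠ k' := by
    intro h
    rw [hk, hk', h] at hdisj
    simp at hdisj
  have hBk : B k k' = 1 := by
    have := hrow k
    rw [Finset.sum_eq_single k'] at this
    · exact this
    · intro j _ hj
      exact hK k (by rw [hk]; simp) j (by rw [hk']; simpa using hj)
    · simp
  have hperm : ∀ k k' : Fin 4, k ≠ k' → ∃ σ : Equiv.Perm (Fin 4), σ k = 0 ∧ σ k' = 1 := by decide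
  obtain ⟨σ, hσ, hσ'⟩ := hperm k k' hkk
  refine ⟨σ, ?_⟩
  -- the matrix in the new coordinates
  let D : Matrix (Fin 4) (Fin 4) ℝ := fun a b => B (σ.symm a) (σ.symm b)
  have hD01 : D 0 1 = 1 := by
    show B (σ.symm 0) (σ.symm 1) = 1
    rw [← hσ, ← hσ', Equiv.symm_apply_apply, Equiv.symm_apply_apply, hBk]
  have hDnn : ∀ a b, 0 ≤ D a b := fun a b => hnn _ _
  have hDs : ∀ a b, D a b = D b a := fun a b => hs _ _
  have hDrow : ∀ a, ∑ b, D a b = 1 := by
    intro a
    rw [← hrow (σ.symm a)]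
    exact Equiv.sum_comp σ.symm (fun b => B (σ.symm a) b)
  have hDtr : ∑ a, D a a = 1 := by
    rw [← htr, Matrix.trace]
    exact Equiv.sum_comp σ.symm (fun a => B a a)
  have r0 := hDrow 0
  have r1 := hDrow 1
  have r2 := hDrow 2
  have r3 := hDrow 3
  rw [Fin.sum_univ_four] at r0 r1 r2 r3 hDtr
  have s10 := hDs 1 0
  have s20 := hDs 2 0
  have s30 := hDs 3 0
  have s21 := hDs 2 1
  have s31 := hDs 3 1
  have s32 := hDs 3 2
  have n00 := hDnn 0 0
  have n02 := hDnn 0 2
  have n03 := hDnn 0 3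
  have n11 := hDnn 1 1
  have n12 := hDnn 1 2
  have n13 := hDnn 1 3
  have e00 : D 0 0 = 0 := by linarith
  have e02 : D 0 2 = 0 := by linarith
  have e03 : D 0 3 = 0 := by linarith
  have e10 : D 1 0 = 1 := by linarith
  have e11 : D 1 1 = 0 := by linarith
  have e12 : D 1 2 = 0 := by linarith
  have e13 : D 1 3 = 0 := by linarith
  have e20 : D 2 0 = 0 := by linarith
  have e21 : D 2 1 = 0 := by linarith
  have e30 : D 3 0 = 0 := by linarith
  have e31 : D 3 1 = 0 := by linarith
  have e23 : D 2 3 = 2⁻¹ := by linarith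
  have e32 : D 3 2 = 2⁻¹ := by linarith
  have e22 : D 2 2 = 2⁻¹ := by linarith
  have e33 : D 3 3 = 2⁻¹ := by linarith
  have hD : D = A₀ := by
    ext a b
    fin_cases a <;> fin_cases b <;> simp [A₀] <;> assumption
  ext i j
  rw [← hD]
  show B i j = B (σ.symm (σ i)) (σ.symm (σ j))
  rw [Equiv.symm_apply_apply, Equiv.symm_apply_apply]

theorem ds : IsDS A₀ := by
  rintro B hB ⟨S, hS⟩
  have htr : B.trace = 1 := by
    rw [hS, Matrix.trace_mul_cycle, ← Units.val_mul, mul_inv_cancel]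
    simp [A₀, Matrix.trace, Fin.sum_univ_four]
    norm_num
  let v : Fin 4 → ℝ := ![1, -1, 0, 0]
  have hv : A₀ *ᵥ v = -v := by
    ext i
    fin_cases i <;> simp [A₀, v, Matrix.mulVec, dotProduct, Fin.sum_univ_four]
  refine key B hB htr ((S⁻¹ : (Matrix (Fin 4) (Fin 4) ℝ)ˣ).val *ᵥ v) ?_ ?_
  · intro h0
    have h1 : S.val *ᵥ ((S⁻¹ : (Matrix (Fin 4) (Fin 4) ℝ)ˣ).val *ᵥ v) = 0 := by rw [h0]; simp
    rw [Matrix.mulVec_mulVec, ← Units.val_mul, mul_inv_cancel, Units.val_one, Matrix.one_mulVec] at h1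
    have := congrFun h1 0
    simp [v] at this
  · rw [hS, Matrix.mulVec_mulVec, Matrix.mul_assoc, ← Units.val_mul, mul_inv_cancel, Units.val_one,
      Matrix.mul_one, ← Matrix.mulVec_mulVec, hv, Matrix.mulVec_neg]

/-- The assertion of Q1 is false: for `n = 4` the matrix `A₀ = (0 1; 1 0) ⊕ (1/2 1/2; 1/2 1/2)`, of
trace `1`, is determined by its spectrum in `Δ_4^s` and lies on none of the segments. -/
theorem result :
    (A₀ ∈ DeltaS 4 ∧ A₀.trace = 1 ∧ IsDS A₀ ∧ A₀ ∉ segment ℝ 1 (Cmat 4) ∧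
      ∀ P ∈ (DeltaS 4).extremePoints ℝ, A₀ ∉ segment ℝ 1 P ∧ A₀ ∉ segment ℝ (Cmat 4) P) ∧
    ¬ (∀ n : ℕ, 2 ≤ n → ∀ A ∈ DeltaS n, 0 < A.trace → IsDS A →
      A ∈ segment ℝ 1 (Cmat n) ∨
        ∃ P ∈ (DeltaS n).extremePoints ℝ, A ∈ segment ℝ 1 P ∨ A ∈ segment ℝ (Cmat n) P) := by
  have htr : A₀.trace = 1 := by
    simp [A₀, Matrix.trace, Fin.sum_univ_four]
    norm_num
  have h1 : A₀ ∉ segment ℝ 1 (Cmat 4) := by
    rintro ⟨s, t, hs, ht, hst, h⟩
    have e := congrFun (congrFun h 0) 1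
    simp [A₀, Cmat] at e
    linarith
  have h2 : ∀ P ∈ (DeltaS 4).extremePoints ℝ, A₀ ∉ segment ℝ 1 P ∧ A₀ ∉ segment ℝ (Cmat 4) P := by
    intro P hP
    have hPd := (mem_doublyStochastic_iff_sum.1 hP.1.1).1
    constructor
    · rintro ⟨s, t, hs, ht, hst, h⟩
      have e := congrFun (congrFun h 0) 0
      simp [A₀] at e
      have := mul_nonneg ht (hPd 0 0)
      have hs0 : s = 0 := by linarith
      have ht1 : t = 1 := by linarith
      rw [hs0, ht1, zero_smul, one_smul, zero_add] at h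
      exact not_extreme (h ▸ hP)
    · rintro ⟨s, t, hs, ht, hst, h⟩
      have e := congrFun (congrFun h 0) 2
      simp [A₀, Cmat] at e
      have := mul_nonneg ht (hPd 0 2)
      have hs0 : s = 0 := by linarith
      have ht1 : t = 1 := by linarith
      rw [hs0, ht1, zero_smul, one_smul, zero_add] at h
      exact not_extreme (h ▸ hP)
  refine ⟨⟨A₀_mem, htr, ds, h1, h2⟩, fun hall => ?_⟩
  rcases hall 4 (by norm_num) A₀ A₀_mem (by rw [htr]; norm_num) ds with h | ⟨P, hP, h⟩
  · exact h1 h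
  · rcases h with h | h
    · exact (h2 P hP).1 h
    · exact (h2 P hP).2 h

end Pool.Agent.Results.MP_3aa442_co.SwapPlusHalf
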